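import Mathlib

/-! Limsup sets of null sets for a gauge. -/

set_option autoImplicit false

open Topology Filter Metric MeasureTheory Set
open scoped ENNReal

namespace Pool.Agent.Helper32.LD

/-- the gauge `t ^ 2 * exp ((log (1 / t)) ^ δ)` -/
noncomputable def gauge (δ : ℝ) (t : ℝ≥0∞) : ℝ≥0∞ :=
  ENNReal.ofReal (t.toReal ^ 2 * Real.exp ((Real.log (1 / t.toReal)) ^ δ))

theorem ev_rpow {a b M : ℝ} (h : a < b) : ∀ᶠ n : ℕ in atTop, M * (n : ℝ) ^ a ≤ (n : ℝ) ^ b := by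
  have h1 : Tendsto (fun n : ℕ => (n : ℝ) ^ (b - a)) atTop atTop :=
    (tendsto_rpow_atTop (by linarith)).comp tendsto_natCast_atTop_atTop
  filter_upwards [h1.eventually_ge_atTop M, eventually_ge_atTop 1] with n hn hn1
  have hn0 : (0 : ℝ) < n := by exact_mod_cast hn1
  have h2 : (n : ℝ) ^ b = (n : ℝ) ^ (b - a) * (n : ℝ) ^ a := by
    rw [← Real.rpow_add hn0]
    congr 1
    ring
  rw [h2]
  exact mul_le_mul_of_nonneg_right hn (Real.rpow_nonneg hn0.le _)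

theorem ev_log {γ : ℝ} (hγ : 0 < γ) : ∀ᶠ n : ℕ in atTop, 4 * Real.log n ≤ (n : ℝ) ^ γ := by
  have h := (isLittleO_log_rpow_atTop hγ).bound (by norm_num : (0 : ℝ) < 1 / 4)
  filter_upwards [tendsto_natCast_atTop_atTop.eventually h, eventually_ge_atTop 1] with n hn hn1
  have hn1' : (1 : ℝ) ≤ n := by exact_mod_cast hn1
  rw [Real.norm_of_nonneg (Real.log_nonneg hn1'),
    Real.norm_of_nonneg (Real.rpow_nonneg (by linarith) _)] at hn
  linarith

/-- the terms of the series -/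
theorem term_le {β γ δ : ℝ} (hβ : 0 < β) (hδ0 : 0 ≤ δ) (hγ0 : 0 < γ) (hδ : β * δ < γ) :
    ∀ᶠ n : ℕ in atTop, ∀ k : ℝ, 0 ≤ k → k ≤ Real.exp (2 * (n : ℝ) ^ β - (n : ℝ) ^ γ) →
      ENNReal.ofReal k * gauge δ (ENNReal.ofReal (4 * Real.exp (-(n : ℝ) ^ β))) ≤
        ENNReal.ofReal (16 * (1 / (n : ℝ) ^ 2)) := by
  have h2 : Tendsto (fun n : ℕ => (n : ℝ) ^ β) atTop atTop :=
    (tendsto_rpow_atTop hβ).comp tendsto_natCast_atTop_atTop
  filter_upwards [ev_rpow (M := 2) hδ, ev_log hγ0, h2.eventually_ge_atTop (Real.log 4),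
    eventually_ge_atTop 1] with n h3 h4 h5 hn1 k hk0 hk
  have hn0 : (0 : ℝ) < n := by exact_mod_cast hn1
  have hpos : 0 < 4 * Real.exp (-(n : ℝ) ^ β) := by positivity
  unfold gauge
  rw [ENNReal.toReal_ofReal hpos.le, ← ENNReal.ofReal_mul hk0]
  apply ENNReal.ofReal_le_ofReal
  have e1 : Real.log (1 / (4 * Real.exp (-(n : ℝ) ^ β))) = (n : ℝ) ^ β - Real.log 4 := by
    rw [one_div, Real.log_inv, Real.log_mul (by norm_num) (Real.exp_pos _).ne', Real.log_exp]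
    ring
  have e2 : ((n : ℝ) ^ β - Real.log 4) ^ δ ≤ (n : ℝ) ^ (β * δ) := by
    rw [Real.rpow_mul hn0.le]
    apply Real.rpow_le_rpow (by linarith) _ hδ0
    have : 0 ≤ Real.log 4 := Real.log_nonneg (by norm_num)
    linarith
  have e3 : (4 * Real.exp (-(n : ℝ) ^ β)) ^ 2 = 16 * Real.exp (-(2 * (n : ℝ) ^ β)) := by
    rw [mul_pow, ← Real.exp_nat_mul]
    norm_num
  have e4 : (1 : ℝ) / (n : ℝ) ^ 2 = Real.exp (-(2 * Real.log n)) := by
    rw [Real.exp_neg, mul_comm, Real.exp_mul, Real.exp_log hn0, one_div]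
    norm_num
  rw [e1, e3, e4]
  calc k * (16 * Real.exp (-(2 * (n : ℝ) ^ β)) * Real.exp (((n : ℝ) ^ β - Real.log 4) ^ δ))
      ≤ Real.exp (2 * (n : ℝ) ^ β - (n : ℝ) ^ γ) * (16 * Real.exp (-(2 * (n : ℝ) ^ β)) *
        Real.exp ((n : ℝ) ^ (β * δ))) := by
        gcongr
    _ = 16 * Real.exp ((2 * (n : ℝ) ^ β - (n : ℝ) ^ γ) + -(2 * (n : ℝ) ^ β) +
        (n : ℝ) ^ (β * δ)) := by
        rw [Real.exp_add, Real.exp_add]
        ring
    _ ≤ 16 * Real.exp (-(2 * Real.log n)) := by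
        gcongr
        linarith

/-- limsup sets -/
theorem gauge_null {β γ δ : ℝ} (hβ : 0 < β) (hδ0 : 0 ≤ δ) (hγ0 : 0 < γ) (hδ : β * δ < γ)
    {S : ℕ → Set ℂ} (h : ∀ᶠ n : ℕ in atTop, ∃ T : Finset ℂ,
      (T.card : ℝ) ≤ Real.exp (2 * (n : ℝ) ^ β - (n : ℝ) ^ γ) ∧
      S n ⊆ ⋃ x ∈ T, closedBall x (2 * Real.exp (-(n : ℝ) ^ β))) :
    Measure.mkMetric (gauge δ) {c : ℂ | ∃ᶠ n : ℕ in atTop, c ∈ S n} = 0 := by
  classical
  obtain ⟨N0, hN0⟩ := eventually_atTop.1 (h.and (term_le hβ hδ0 hγ0 hδ))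
  have hT : ∀ n : ℕ, ∃ T : Finset ℂ, N0 ≤ n →
      (T.card : ℝ) ≤ Real.exp (2 * (n : ℝ) ^ β - (n : ℝ) ^ γ) ∧
      S n ⊆ ⋃ x ∈ T, closedBall x (2 * Real.exp (-(n : ℝ) ^ β)) := by
    intro n
    by_cases hn : N0 ≤ n
    · obtain ⟨T, hT⟩ := (hN0 n hn).1
      exact ⟨T, fun _ => hT⟩
    · exact ⟨∅, fun h => absurd h hn⟩
  choose T hT using hT
  set r : ℕ → ℝ := fun n => 2 * Real.exp (-(n : ℝ) ^ β) with hr
  have hr0 : ∀ n, 0 < r n := fun n => by rw [hr]; positivity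
  have hrt : Tendsto (fun n : ℕ => ENNReal.ofReal (2 * r n)) atTop (𝓝 0) := by
    have h1 : Tendsto (fun n : ℕ => 2 * r n) atTop (𝓝 0) := by
      have h2 : Tendsto (fun n : ℕ => Real.exp (-(n : ℝ) ^ β)) atTop (𝓝 0) :=
        Real.tendsto_exp_neg_atTop_nhds_zero.comp
          ((tendsto_rpow_atTop hβ).comp tendsto_natCast_atTop_atTop)
      have h3 := h2.const_mul (4 : ℝ)
      rw [mul_zero] at h3
      refine h3.congr fun n => ?_
      rw [hr]
      ring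
    have h2 := ENNReal.tendsto_ofReal h1
    rwa [ENNReal.ofReal_zero] at h2
  have hanti : ∀ m n : ℕ, m ≤ n → r n ≤ r m := by
    intro m n hmn
    rw [hr]
    show 2 * Real.exp (-(n : ℝ) ^ β) ≤ 2 * Real.exp (-(m : ℝ) ^ β)
    gcongr
  have hdiam : ∀ (x : ℂ) (n : ℕ), ediam (closedBall x (r n)) = ENNReal.ofReal (2 * r n) := by
    intro x n
    have h1 := Metric.diam_closedBall_eq x (hr0 n).le
    rw [← h1, Metric.diam, ENNReal.ofReal_toReal]
    exact isBounded_closedBall.ediam_ne_top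
  have key := Measure.mkMetric_le_liminf_tsum (X := ℂ) (β := ℕ)
    (ι := fun N => Σ n : ℕ, {x : ℂ // x ∈ T (n + N)})
    {c : ℂ | ∃ᶠ n : ℕ in atTop, c ∈ S n} (l := atTop)
    (fun N => ENNReal.ofReal (2 * r N)) hrt
    (fun N i => closedBall i.2.1 (r (i.1 + N)))
    (Eventually.of_forall fun N i => by
      rw [hdiam]
      apply ENNReal.ofReal_le_ofReal
      have := hanti N (i.1 + N) (by omega)
      linarith)
    (by
      filter_upwards [eventually_ge_atTop N0] with N hN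
      intro c hc
      obtain ⟨n, hn, hcn⟩ := (frequently_atTop.1 hc) N
      have h1 := (hT n (hN.trans hn)).2 hcn
      rw [mem_iUnion₂] at h1
      obtain ⟨x, hx, hxc⟩ := h1
      rw [mem_iUnion]
      have e : n - N + N = n := by omega
      refine ⟨⟨n - N, ⟨x, by rw [e]; exact hx⟩⟩, ?_⟩
      show c ∈ closedBall x (r (n - N + N))
      rw [e]
      exact hxc)
    (gauge δ)
  rw [← nonpos_iff_eq_zero]
  refine key.trans ?_
  have hsum : Tendsto (fun N : ℕ => ∑' k : ℕ, ENNReal.ofReal (16 * (1 / ((k + N : ℕ) : ℝ) ^ 2)))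
      atTop (𝓝 0) := by
    apply ENNReal.tendsto_sum_nat_add (fun k : ℕ => ENNReal.ofReal (16 * (1 / (k : ℝ) ^ 2)))
    have h1 : Summable (fun k : ℕ => 16 * (1 / (k : ℝ) ^ 2)) :=
      (Real.summable_one_div_nat_pow.2 (by norm_num)).mul_left 16
    rw [← ENNReal.ofReal_tsum_of_nonneg (fun n => by positivity) h1]
    exact ENNReal.ofReal_ne_top
  refine le_trans (liminf_le_liminf (v := fun N : ℕ =>
    ∑' k : ℕ, ENNReal.ofReal (16 * (1 / ((k + N : ℕ) : ℝ) ^ 2))) ?_) hsum.liminf_eq.le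
  filter_upwards [eventually_ge_atTop N0] with N hN
  rw [ENNReal.tsum_sigma']
  apply ENNReal.tsum_le_tsum
  intro k
  have h1 := (hN0 (k + N) (by omega)).2 ((T (k + N)).card : ℝ) (Nat.cast_nonneg _)
    (hT (k + N) (by omega)).1
  refine le_trans (le_of_eq ?_) h1
  simp only [hdiam]
  rw [tsum_fintype, Finset.sum_const, nsmul_eq_mul, Finset.card_univ, Fintype.card_coe,
    ENNReal.ofReal_natCast]
  congr 3
  rw [hr]
  ring

end Pool.Agent.Helper32.LD
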