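import Pool.Agent.Helper32.LD.Asy2
import Pool.Agent.Helper32.LD.Gauge
import Pool.Agent.Helper32.RA.Decide

/-! Large deviations: areas of the sublevel sets of the escape rate. -/

set_option autoImplicit false

open Complex Topology Filter Metric MeasureTheory Set N62a1eb23
open Pool.Agent.H713R2 Pool.Agent.H713R2.AR

namespace Pool.Agent.Helper32.LD

open Pool.Agent.H637R4.PO Pool.Agent.TH279.DG
open Pool.Agent.H712R2 (fc)

variable {d : ℕ}

theorem expo {β γ : ℝ} (hβ : 1 / 2 < β) (hγ : γ < 2 * β - 1) :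
    ∃ η l : ℝ, 0 < η ∧ 0 < l ∧ 1 < β * ((2 + l - η) / (1 + l)) ∧ γ < β * η := by
  have hβ0 : 0 < β := by linarith
  obtain ⟨g, hg1, hg2⟩ : ∃ g, max γ 0 < g ∧ g < 2 * β - 1 := by
    apply exists_between
    exact max_lt hγ (by linarith)
  have hg0 : 0 < g := lt_of_le_of_lt (le_max_right _ _) hg1
  have hgγ : γ < g := lt_of_le_of_lt (le_max_left _ _) hg1
  have hβη : β * (g / β) = g := by field_simp
  have hl0 : 0 < (2 * β - g - 1) / (1 + |1 - β|) := by
    apply div_pos (by linarith)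
    have := abs_nonneg (1 - β)
    linarith
  refine ⟨g / β, (2 * β - g - 1) / (1 + |1 - β|), by positivity, hl0, ?_, by rw [hβη]; exact hgγ⟩
  set l := (2 * β - g - 1) / (1 + |1 - β|) with hl
  rw [← mul_div_assoc, lt_div_iff₀ (by linarith)]
  have e1 : β * (2 + l - g / β) = 2 * β + β * l - g := by
    rw [mul_sub, hβη]
    ring
  rw [e1]
  have h1 : l * (1 + |1 - β|) = 2 * β - g - 1 := by
    rw [hl]
    have := abs_nonneg (1 - β)
    field_simp
  have h2 := le_abs_self (1 - β)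
  nlinarith

/-- Covering of the parameters with small areas. -/
theorem cover_area (hd : 2 ≤ d) {β γ : ℝ} (hβ : 1 / 2 < β) (hβ1 : β ≤ 1)
    (hγ : γ < 2 * β - 1) :
    ∀ᶠ n : ℕ in atTop, ∃ T : Finset ℂ,
      (T.card : ℝ) ≤ Real.exp (2 * (n : ℝ) ^ β - (n : ℝ) ^ γ) ∧
      ∀ c ∈ multibrotSet d, (∀ x ∈ T, 2 * Real.exp (-(n : ℝ) ^ β) < dist c x) →
        Real.exp (-(n : ℝ) ^ β) ≤ Cd d * Ar d c (Real.exp (-(n : ℝ))) := by
  have hcl := t_CLO d hd
  have hsub : multibrotSet d ⊆ closedBall 0 2 := fun c hc => by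
    rw [mem_closedBall_zero_iff]
    exact f_NRM d hd c hc
  obtain ⟨ψ, hψ⟩ := AE2_ext hd
  have hdR : (2 : ℝ) ≤ d := by exact_mod_cast hd
  obtain ⟨η, l, hη0, hl0, hl2, hγη⟩ := expo hβ hγ
  obtain ⟨κ, hκ, C, hC, U, hU, hdec⟩ := decay (η := η) hψ hcl hsub hl0
  have hlogd : Tendsto (fun n : ℕ => (n : ℝ)) atTop atTop := tendsto_natCast_atTop_atTop
  filter_upwards [asy2 (d := 3) (by norm_num) hU hC hκ hl0 (by linarith) hβ1 hη0 hl2 hγη,
    hlogd.eventually_ge_atTop (Real.log d)] with n hn hnd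
  obtain ⟨m, hm1, hm2, hm3, hm4, hm5⟩ := hn
  obtain ⟨T, hT1, hT2⟩ := hdec m hm1
  refine ⟨T, hT1.trans hm5, ?_⟩
  intro c hc hcT
  have h1 := hT2 c hc (fun x hx => hm4.trans_lt (hcT x hx))
  have h3 : sb U ((ka l / (m : ℝ) ^ η) ^ (1 / (1 + l))) l m ≤ Real.exp (-(n : ℝ)) := by
    have h4 : Real.exp n ≤ (3 : ℝ) ^ n := by
      rw [← Real.exp_one_rpow, Real.rpow_natCast]
      apply pow_le_pow_left₀ (Real.exp_pos 1).le
      have := Real.exp_one_lt_d9
      linarith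
    have h5 : Real.exp n * sb U ((ka l / (m : ℝ) ^ η) ^ (1 / (1 + l))) l m ≤ 1 := by
      refine le_trans (mul_le_mul_of_nonneg_right h4 ?_) hm2
      unfold sb
      positivity
    rw [Real.exp_neg, ← one_div, le_div_iff₀ (Real.exp_pos _), mul_comm]
    exact h5
  have h4 : Bnd ψ c ((1 / 2 : ℝ) ^ m) (d * Real.exp (-(n : ℝ))) := by
    intro w hw hwb
    refine (h1 w hw hwb).trans (h3.trans ?_)
    have := Real.exp_pos (-(n : ℝ))
    nlinarith
  have h5 : (d : ℝ) * Real.exp (-(n : ℝ)) ≤ 1 := by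
    have e : (d : ℝ) = Real.exp (Real.log d) := (Real.exp_log (by linarith)).symm
    rw [e, ← Real.exp_add, Real.exp_le_one_iff]
    linarith
  have h6 := f_AREA d hd ψ hψ c hc ((1 / 2 : ℝ) ^ m) (d * Real.exp (-(n : ℝ))) (by positivity)
    (by positivity) h5 h4
  have h7 : (d : ℝ) * Real.exp (-(n : ℝ)) / d = Real.exp (-(n : ℝ)) := by
    field_simp
  rw [h7] at h6
  exact hm3.trans h6

open Pool.Agent.Helper32.RA in
/-- an open set which meets the interior -/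
theorem not_int (hd : 2 ≤ d) {c : ℂ} {O : Set ℂ} (hO : IsOpen O) {z₀ : ℂ} (hz : z₀ ∈ O)
    (hz' : z₀ ∈ closure (interior (Kf d c))) {φ : ℝ → ℝ} (hφ : Tendsto φ (𝓝[>] 0) (𝓝 0)) :
    ¬ ∃ᶠ s in 𝓝[>] (0 : ℝ), volume (O ∩ {z : ℂ | green d c z ≤ s}) ≤ ENNReal.ofReal (φ s) := by
  rw [not_frequently]
  have hne : (O ∩ interior (Kf d c)).Nonempty := by
    rw [_root_.mem_closure_iff] at hz'
    exact hz' O hO hz
  have hpos : 0 < volume (O ∩ interior (Kf d c)) := (hO.inter isOpen_interior).measure_pos _ hne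
  have h1 : Tendsto (fun s : ℝ => ENNReal.ofReal (φ s)) (𝓝[>] 0) (𝓝 0) := by
    have := ENNReal.tendsto_ofReal hφ
    rwa [ENNReal.ofReal_zero] at this
  filter_upwards [h1.eventually (Iio_mem_nhds hpos), self_mem_nhdsWithin] with s hs hs0
  rw [not_le]
  refine lt_of_lt_of_le hs (measure_mono ?_)
  rintro z ⟨h2, h3⟩
  refine ⟨h2, ?_⟩
  show green d c z ≤ s
  rw [green_zero_of_mem hd (interior_subset h3)]
  exact le_of_lt hs0

open Pool.Agent.Helper32.RA in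
/-- the filled Julia set of `z ^ d` is the closure of its interior -/
theorem zero_int (hd : 2 ≤ d) {z : ℂ} (hz : z ∈ Kf d 0) : z ∈ closure (interior (Kf d 0)) := by
  have hiter : ∀ (n : ℕ) (z : ℂ), ‖(fc d 0)^[n] z‖ = ‖z‖ ^ (d ^ n) := by
    intro n z
    induction n with
    | zero => simp
    | succ n ih =>
      rw [Function.iterate_succ_apply']
      show ‖((fc d 0)^[n] z) ^ d + 0‖ = _
      rw [add_zero, norm_pow, ih, ← pow_mul, pow_succ]
  have hK : Kf d 0 = closedBall 0 1 := by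
    ext z
    rw [mem_closedBall_zero_iff]
    constructor
    · rintro ⟨B, hB⟩
      by_contra hcon
      push Not at hcon
      obtain ⟨m, hm⟩ := pow_unbounded_of_one_lt B hcon
      have h1 := hB m
      rw [hiter] at h1
      have h2 : ‖z‖ ^ m ≤ ‖z‖ ^ (d ^ m) :=
        pow_le_pow_right₀ hcon.le (Nat.lt_pow_self (by omega : 1 < d)).le
      linarith
    · intro h
      exact ⟨1, fun n => by rw [hiter]; exact pow_le_one₀ (norm_nonneg _) h⟩
  rw [hK] at hz ⊢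
  rw [interior_closedBall _ one_ne_zero, closure_ball _ one_ne_zero]
  exact hz

open Pool.Agent.Helper32.RA in
/-- Local decay implies global decay. -/
theorem global_of_loc (hd : 2 ≤ d) {c : ℂ} {φ : ℝ → ℝ} (hφ : Tendsto φ (𝓝[>] 0) (𝓝 0))
    (hφ0 : ∀ s, 0 ≤ φ s)
    (h : ∃ O : Set ℂ, IsOpen O ∧ (O ∩ Kf d c).Nonempty ∧
      ∃ᶠ s in 𝓝[>] (0 : ℝ), volume (O ∩ {z : ℂ | green d c z ≤ s}) ≤ ENNReal.ofReal (φ s)) :
    ∃ C : ℝ, 0 < C ∧ ∃ᶠ s in 𝓝[>] (0 : ℝ), Ar d c s ≤ C * φ s := by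
  obtain ⟨O, hO, ⟨z₀, hz, hzK⟩, hf⟩ := h
  have hc0 : c ≠ 0 := by
    rintro rfl
    exact not_int hd hO hz (zero_int hd hzK) hφ hf
  have hfr : z₀ ∈ frontier (Kf d c) := by
    rw [(isClosed_Kf hd c).frontier_eq]
    refine ⟨hzK, fun hint => ?_⟩
    exact not_int hd hO hz (subset_closure hint) hφ hf
  obtain ⟨C, hC, hloc⟩ := local_le hd hc0 hO hz hfr
  have hs1 : ∀ᶠ s in 𝓝[>] (0 : ℝ), s < 1 := mem_nhdsWithin_of_mem_nhds (Iio_mem_nhds one_pos)
  refine ⟨C, hC, (hf.and_eventually (hs1.and self_mem_nhdsWithin)).mono ?_⟩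
  rintro s ⟨h1, h3, h4⟩
  have hs0 : (0 : ℝ) < s := h4
  have h5 := hloc s hs0 h3.le
  have h6 : volume {z : ℂ | green d c z ≤ s} ≤ ENNReal.ofReal (C * φ s) := by
    refine h5.trans ?_
    rw [ENNReal.ofReal_mul hC.le]
    gcongr
  exact ENNReal.toReal_le_of_le_ofReal (mul_nonneg hC.le (hφ0 s)) h6

theorem tendsto_phi {β : ℝ} (hβ : 0 < β) :
    Tendsto (fun s : ℝ => Real.exp (-(Real.log (1 / s)) ^ β)) (𝓝[>] 0) (𝓝 0) := by
  have h1 : Tendsto (fun s : ℝ => Real.log (1 / s)) (𝓝[>] 0) atTop := by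
    have h2 : (fun s : ℝ => Real.log (1 / s)) = fun s => - Real.log s := by
      funext s
      rw [one_div, Real.log_inv]
    rw [h2]
    exact tendsto_neg_atBot_atTop.comp Real.tendsto_log_nhdsGT_zero
  exact Real.tendsto_exp_neg_atTop_nhds_zero.comp ((tendsto_rpow_atTop hβ).comp h1)

/-- from small `s` to integers -/
theorem freq_nat (hd : 2 ≤ d) {c : ℂ} (hc : c ∈ multibrotSet d) {β β' C : ℝ} (hβ' : 0 < β')
    (hlt : β' < β) (hC : 0 < C)
    (h : ∃ᶠ s in 𝓝[>] (0 : ℝ), Ar d c s ≤ C * Real.exp (-(Real.log (1 / s)) ^ β)) :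
    ∃ᶠ n : ℕ in atTop, Cd d * Ar d c (Real.exp (-(n : ℝ))) < Real.exp (-(n : ℝ) ^ β') := by
  have hCd : 0 < Cd d := by
    unfold Cd
    have hdR : (0 : ℝ) < d := by exact_mod_cast (by omega : 0 < d)
    positivity
  have hL : Tendsto (fun s : ℝ => Real.log (1 / s)) (𝓝[>] 0) atTop := by
    have h2 : (fun s : ℝ => Real.log (1 / s)) = fun s => - Real.log s := by
      funext s
      rw [one_div, Real.log_inv]
    rw [h2]
    exact tendsto_neg_atBot_atTop.comp Real.tendsto_log_nhdsGT_zero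
  have hev : ∀ᶠ y : ℝ in atTop, Real.log (Cd d) + Real.log C + (2 * y) ^ β' < y ^ β := by
    have h1 := ASY_ev β' β (2 ^ β' + 1) hlt
    have h2 : Tendsto (fun y : ℝ => y ^ β') atTop atTop := tendsto_rpow_atTop hβ'
    filter_upwards [h1, h2.eventually_gt_atTop (Real.log (Cd d) + Real.log C),
      eventually_gt_atTop 0] with y h3 h4 h5
    rw [Real.mul_rpow (by norm_num) h5.le]
    nlinarith
  rw [frequently_atTop]
  intro N
  obtain ⟨s, h1, h2, h3, h4⟩ := (h.and_eventually ((hL.eventually hev).and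
    ((hL.eventually_ge_atTop (max (N : ℝ) 1)).and self_mem_nhdsWithin))).exists
  have hs0 : (0 : ℝ) < s := h4
  set y : ℝ := Real.log (1 / s) with hy
  have hyN : (N : ℝ) ≤ y := (le_max_left _ _).trans h3
  have hy1 : (1 : ℝ) ≤ y := (le_max_right _ _).trans h3
  refine ⟨⌈y⌉₊, ?_, ?_⟩
  · have : (N : ℝ) ≤ (⌈y⌉₊ : ℝ) := hyN.trans (Nat.le_ceil y)
    exact_mod_cast this
  · have hn1 : y ≤ ⌈y⌉₊ := Nat.le_ceil y
    have hn2 : (⌈y⌉₊ : ℝ) < y + 1 := Nat.ceil_lt_add_one (by linarith)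
    have hs : s = Real.exp (-y) := by
      rw [hy, one_div, Real.log_inv, neg_neg, Real.exp_log hs0]
    have h5 : Ar d c (Real.exp (-(⌈y⌉₊ : ℝ))) ≤ Ar d c s := by
      apply t_MONO d hd c hc
      rw [hs]
      apply Real.exp_le_exp.2
      linarith
    have h6 : ((⌈y⌉₊ : ℕ) : ℝ) ^ β' ≤ (2 * y) ^ β' :=
      Real.rpow_le_rpow (by positivity) (by linarith) hβ'.le
    calc Cd d * Ar d c (Real.exp (-(⌈y⌉₊ : ℝ))) ≤ Cd d * (C * Real.exp (-y ^ β)) :=
          mul_le_mul_of_nonneg_left (h5.trans h1) hCd.le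
      _ = Real.exp (Real.log (Cd d) + Real.log C + -y ^ β) := by
          rw [Real.exp_add, Real.exp_add, Real.exp_log hCd, Real.exp_log hC]
          ring
      _ < Real.exp (-((⌈y⌉₊ : ℕ) : ℝ) ^ β') := by
          apply Real.exp_lt_exp.2
          linarith

/-- **The gauge measure of the parameters with small areas near some point.** -/
theorem null_area (hd : 2 ≤ d) {β δ : ℝ} (hβ : 1 / 2 < β) (hβ1 : β ≤ 1) (hδ0 : 0 ≤ δ)
    (hδ : β * δ < 2 * β - 1) :
    Measure.mkMetric (gauge δ) {c : ℂ | c ∈ multibrotSet d ∧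
      ∃ O : Set ℂ, IsOpen O ∧ (O ∩ Pool.Agent.Helper32.RA.Kf d c).Nonempty ∧
        ∃ᶠ s in 𝓝[>] (0 : ℝ), volume (O ∩ {z : ℂ | green d c z ≤ s}) ≤
          ENNReal.ofReal (Real.exp (-(Real.log (1 / s)) ^ β))} = 0 := by
  -- a smaller exponent
  have hex : ∀ᶠ b : ℝ in 𝓝[<] β, 1 / 2 < b ∧ b * δ < 2 * b - 1 := by
    have h1 : ∀ᶠ b : ℝ in 𝓝 β, 1 / 2 < b := Ioi_mem_nhds hβ
    have h2 : ∀ᶠ b : ℝ in 𝓝 β, b * δ < 2 * b - 1 := by
      have hc1 : ContinuousAt (fun b : ℝ => b * δ) β := by fun_prop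
      have hc2 : ContinuousAt (fun b : ℝ => 2 * b - 1) β := by fun_prop
      exact hc1.eventually_lt hc2 hδ
    exact (h1.and h2).filter_mono nhdsWithin_le_nhds
  obtain ⟨β', ⟨h1, h2⟩, h3⟩ := (hex.and self_mem_nhdsWithin).exists
  have h3' : β' < β := h3
  obtain ⟨γ, hγ1, hγ2⟩ := exists_between (max_lt h2 (by linarith : 0 < 2 * β' - 1))
  have hγ0 : 0 < γ := lt_of_le_of_lt (le_max_right _ _) hγ1
  have hγδ : β' * δ < γ := lt_of_le_of_lt (le_max_left _ _) hγ1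
  have hcov := cover_area hd h1 (by linarith) hγ2
  have hnull := gauge_null (β := β') (γ := γ) (δ := δ) (by linarith) hδ0 hγ0 hγδ
    (S := fun n : ℕ => {c : ℂ | c ∈ multibrotSet d ∧
      Cd d * Ar d c (Real.exp (-(n : ℝ))) < Real.exp (-(n : ℝ) ^ β')}) (by
    filter_upwards [hcov] with n hn
    obtain ⟨T, hT1, hT2⟩ := hn
    refine ⟨T, hT1, ?_⟩
    rintro c ⟨hc, h4⟩
    by_contra hcon
    simp only [mem_iUnion, mem_closedBall, not_exists, not_le] at hcon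
    exact absurd h4 (not_lt.2 (hT2 c hc hcon)))
  refine measure_mono_null ?_ hnull
  rintro c ⟨hc, hO⟩
  obtain ⟨C, hC, h5⟩ := global_of_loc hd (tendsto_phi (by linarith : 0 < β))
    (fun s => (Real.exp_pos _).le) hO
  exact (freq_nat hd hc (by linarith) h3' hC h5).mono fun n hn => ⟨hc, hn⟩

end Pool.Agent.Helper32.LD
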