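import Pool.Agent.Helper32.LD.Iter
import Pool.Agent.TH279.DG.Asy

/-! Large deviations: choice of the scale. -/

set_option autoImplicit false

open Complex Topology Filter Metric MeasureTheory Set N62a1eb23
open Pool.Agent.H713R2 Pool.Agent.H713R2.AR

namespace Pool.Agent.Helper32.LD

open Pool.Agent.H637R4.PO Pool.Agent.TH279.DG

theorem half_pow (m : ℕ) : (1 / 2 : ℝ) ^ m = Real.exp (-(m * Real.log 2)) := by
  rw [Real.exp_neg, mul_comm, Real.exp_mul, Real.exp_log (by norm_num), Real.rpow_natCast,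
    one_div, inv_pow]

theorem four_pow (m : ℕ) : (4 : ℝ) ^ m = Real.exp (2 * (m * Real.log 2)) := by
  have h : (4 : ℝ) = 2 ^ 2 := by norm_num
  rw [h, ← pow_mul, ← Real.rpow_natCast, Real.rpow_def_of_pos (by norm_num)]
  congr 1
  push_cast
  ring

/-- the power of the number of scales -/
theorem sb_eq {U η l : ℝ} (hU : 0 < U) (hl : 0 < l) {m : ℕ} (hm : 1 ≤ m) :
    sb U ((ka l / (m : ℝ) ^ η) ^ (1 / (1 + l))) l m =
      Real.exp (Real.log U + m * Real.log 2 -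
        (ka l) ^ (1 / (1 + l)) * Real.log 2 * (m : ℝ) ^ ((2 + l - η) / (1 + l))) := by
  rw [ASY_sb U _ l hU m]
  congr 2
  have hm0 : (0 : ℝ) < m := by exact_mod_cast hm
  rw [Real.div_rpow (ka_pos l).le (by positivity), ← Real.rpow_mul hm0.le]
  have e : (m : ℝ) ^ ((2 + l) / (1 + l)) = (m : ℝ) ^ ((2 + l - η) / (1 + l)) *
      (m : ℝ) ^ (η * (1 / (1 + l))) := by
    rw [← Real.rpow_add hm0]
    congr 1
    field_simp
    ring
  rw [e]
  have h2 : (m : ℝ) ^ (η * (1 / (1 + l))) ≠ 0 := (Real.rpow_pos_of_pos hm0 _).ne'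
  field_simp

theorem asy2 {d : ℕ} (hd : 2 ≤ d) {U C κ β η γ l : ℝ} (hU : 0 < U) (hC : 0 < C) (hκ : 0 < κ)
    (hl : 0 < l) (hβ0 : 0 < β) (hβ1 : β ≤ 1) (hη : 0 < η)
    (hl2 : 1 < β * ((2 + l - η) / (1 + l))) (hγ : γ < β * η) :
    ∀ᶠ n : ℕ in atTop, ∃ m : ℕ, 1 ≤ m ∧
      (d : ℝ) ^ n * sb U ((ka l / (m : ℝ) ^ η) ^ (1 / (1 + l))) l m ≤ 1 ∧
      Real.exp (-(n : ℝ) ^ β) ≤ (1 / 2 : ℝ) ^ m ∧ (1 / 2 : ℝ) ^ m ≤ 2 * Real.exp (-(n : ℝ) ^ β) ∧
      C * 4 ^ m * Real.exp (-(κ * (m : ℝ) ^ η)) ≤ Real.exp (2 * (n : ℝ) ^ β - (n : ℝ) ^ γ) := by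
  have hdR : (2 : ℝ) ≤ d := by exact_mod_cast hd
  have hlog2 : 0 < Real.log 2 := Real.log_pos (by norm_num)
  have hlog2' : Real.log 2 < 0.7 := lt_trans Real.log_two_lt_d9 (by norm_num)
  set p : ℝ := (2 + l - η) / (1 + l) with hp
  have hp0 : 0 < p := by
    by_contra hcon
    push Not at hcon
    nlinarith
  have hka := ka_pos l
  set b : ℝ := (ka l) ^ (1 / (1 + l)) with hb
  have hb0 : 0 < b := by positivity
  have h1 := asy_aux (A := Real.log d + 2 * Real.log 2) (B := Real.log U)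
    (b := b * Real.log 2) (q := β * p) (by positivity) hl2
  have h2 : Tendsto (fun n : ℕ => (n : ℝ) ^ β) atTop atTop :=
    (tendsto_rpow_atTop hβ0).comp tendsto_natCast_atTop_atTop
  have h3 : ∀ᶠ n : ℕ in atTop, Real.log C + (n : ℝ) ^ γ ≤ κ * (n : ℝ) ^ (β * η) := by
    have h4 : Tendsto (fun n : ℕ => (n : ℝ) ^ (β * η - max γ 0)) atTop atTop :=
      (tendsto_rpow_atTop (by
        have : 0 < β * η := by positivity
        rcases max_cases γ 0 with h | h <;> rw [h.1] <;> linarith)).comp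
        tendsto_natCast_atTop_atTop
    filter_upwards [h4.eventually (eventually_ge_atTop ((|Real.log C| + 1) / κ)),
      eventually_ge_atTop 1] with n hn hn1
    have hn1' : (1 : ℝ) ≤ n := by exact_mod_cast hn1
    have h5 : (n : ℝ) ^ (β * η) = (n : ℝ) ^ (β * η - max γ 0) * (n : ℝ) ^ (max γ 0) := by
      rw [← Real.rpow_add (by linarith)]
      congr 1
      ring
    have h6 : 1 ≤ (n : ℝ) ^ (max γ 0) := Real.one_le_rpow hn1' (le_max_right _ _)
    have h7 : (n : ℝ) ^ γ ≤ (n : ℝ) ^ (max γ 0) :=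
      Real.rpow_le_rpow_of_exponent_le hn1' (le_max_left _ _)
    rw [div_le_iff₀ hκ] at hn
    rw [h5]
    have h8 : (|Real.log C| + 1) * (n : ℝ) ^ (max γ 0) ≤
        ((n : ℝ) ^ (β * η - max γ 0) * κ) * (n : ℝ) ^ (max γ 0) :=
      mul_le_mul_of_nonneg_right hn (by positivity)
    have h9 := le_abs_self (Real.log C)
    have h10 := abs_nonneg (Real.log C)
    nlinarith
  filter_upwards [h1, h3, h2.eventually (eventually_ge_atTop 10), eventually_ge_atTop 1]
    with n hn hn3 hn10 hn1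
  have hn1' : (1 : ℝ) ≤ n := by exact_mod_cast hn1
  set X : ℝ := (n : ℝ) ^ β with hX
  have hXn : X ≤ n := by
    rw [hX]
    calc (n : ℝ) ^ β ≤ (n : ℝ) ^ (1 : ℝ) := Real.rpow_le_rpow_of_exponent_le hn1' hβ1
      _ = n := Real.rpow_one _
  have hX0 : 0 ≤ X / Real.log 2 := by positivity
  set m := ⌊X / Real.log 2⌋₊ with hm
  have hm1 : (m : ℝ) ≤ X / Real.log 2 := Nat.floor_le hX0
  have hm2 : X / Real.log 2 < m + 1 := Nat.lt_floor_add_one _
  have hm3 : X ≤ m := by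
    have h3 : X / 0.7 ≤ X / Real.log 2 :=
      div_le_div_of_nonneg_left (by linarith) hlog2 hlog2'.le
    have h4 : X / 0.7 = X * (10 / 7) := by norm_num; ring
    rw [h4] at h3
    linarith
  have hm4 : (m : ℝ) ≤ 2 * n := by
    have h3 : (0.6931471803 : ℝ) < Real.log 2 := Real.log_two_gt_d9
    have h4 : X / Real.log 2 ≤ X / 0.5 :=
      div_le_div_of_nonneg_left (by linarith) (by norm_num) (by linarith)
    have h5 : X / 0.5 = 2 * X := by norm_num; ring
    linarith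
  have hm5 : (n : ℝ) ^ (β * p) ≤ (m : ℝ) ^ p := by
    rw [Real.rpow_mul (by positivity), ← hX]
    exact Real.rpow_le_rpow (by linarith) hm3 hp0.le
  have hm6 : (n : ℝ) ^ (β * η) ≤ (m : ℝ) ^ η := by
    rw [Real.rpow_mul (by positivity), ← hX]
    exact Real.rpow_le_rpow (by linarith) hm3 hη.le
  have hmm1 : 1 ≤ m := by
    have : (1 : ℝ) ≤ m := by linarith
    exact_mod_cast this
  have hml : m * Real.log 2 ≤ X := by
    rwa [le_div_iff₀ hlog2] at hm1
  have hml2 : X < (m + 1) * Real.log 2 := by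
    rwa [div_lt_iff₀ hlog2] at hm2
  refine ⟨m, hmm1, ?_, ?_, ?_, ?_⟩
  · rw [sb_eq hU hl hmm1]
    have e1 : (d : ℝ) ^ n = Real.exp (n * Real.log d) := by
      rw [mul_comm, Real.exp_mul, Real.exp_log (by linarith), Real.rpow_natCast]
    rw [e1, ← Real.exp_add, Real.exp_le_one_iff]
    have h6 : b * Real.log 2 * (n : ℝ) ^ (β * p) ≤ b * Real.log 2 * (m : ℝ) ^ p :=
      mul_le_mul_of_nonneg_left hm5 (by positivity)
    have h7 : (m : ℝ) * Real.log 2 ≤ 2 * n * Real.log 2 :=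
      mul_le_mul_of_nonneg_right hm4 hlog2.le
    nlinarith
  · rw [half_pow]
    apply Real.exp_le_exp.2
    linarith
  · rw [half_pow]
    have e2 : 2 * Real.exp (-X) = Real.exp (Real.log 2 + -X) := by
      rw [Real.exp_add, Real.exp_log (by norm_num)]
    rw [e2]
    apply Real.exp_le_exp.2
    linarith
  · have e3 : C = Real.exp (Real.log C) := (Real.exp_log hC).symm
    rw [four_pow]
    rw [e3, ← Real.exp_add, ← Real.exp_add]
    apply Real.exp_le_exp.2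
    have h8 : κ * (n : ℝ) ^ (β * η) ≤ κ * (m : ℝ) ^ η := mul_le_mul_of_nonneg_left hm6 hκ.le
    linarith

/-- Covering of the parameters of a Multibrot set near which the first iterates are large. -/
theorem cover_growth {d : ℕ} (hd : 2 ≤ d) {β γ : ℝ} (hβ : 1 / 2 < β) (hβ1 : β ≤ 1)
    (hγ : γ < 2 * β - 1) :
    ∀ᶠ n : ℕ in atTop, ∃ T : Finset ℂ,
      (T.card : ℝ) ≤ Real.exp (2 * (n : ℝ) ^ β - (n : ℝ) ^ γ) ∧
      ∀ c ∈ multibrotSet d, (∀ x ∈ T, 2 * Real.exp (-(n : ℝ) ^ β) < dist c x) →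
        ∀ c' ∈ ball c (Real.exp (-(n : ℝ) ^ β)), ∀ k ≤ n, ‖PP d k c'‖ ≤ 6 := by
  have hcl := t_CLO d hd
  have hsub : multibrotSet d ⊆ closedBall 0 2 := fun c hc => by
    rw [mem_closedBall_zero_iff]
    exact f_NRM d hd c hc
  obtain ⟨ψ, hψ⟩ := AE2_ext hd
  have hβ0 : 0 < β := by linarith
  -- the choice of the exponents
  obtain ⟨g, hg1, hg2⟩ : ∃ g, max γ 0 < g ∧ g < 2 * β - 1 := by
    apply exists_between
    exact max_lt hγ (by linarith)
  have hg0 : 0 < g := lt_of_le_of_lt (le_max_right _ _) hg1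
  have hgγ : γ < g := lt_of_le_of_lt (le_max_left _ _) hg1
  set η : ℝ := g / β with hη
  have hη0 : 0 < η := by positivity
  have hβη : β * η = g := by rw [hη]; field_simp
  set l : ℝ := β * (2 - η) - 1 with hl
  have hl0 : 0 < l := by
    have : l = 2 * β - g - 1 := by rw [hl, mul_sub, hβη]; ring
    rw [this]
    linarith
  have hl2 : 1 < β * ((2 + l - η) / (1 + l)) := by
    rw [← mul_div_assoc, lt_div_iff₀ (by linarith)]
    nlinarith
  obtain ⟨κ, hκ, C, hC, U, hU, hdec⟩ := decay (η := η) hψ hcl hsub hl0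
  filter_upwards [asy2 hd hU hC hκ hl0 hβ0 hβ1 hη0 hl2 (by rw [hβη]; exact hgγ)] with n hn
  obtain ⟨m, hm1, hm2, hm3, hm4, hm5⟩ := hn
  obtain ⟨T, hT1, hT2⟩ := hdec m hm1
  refine ⟨T, hT1.trans hm5, ?_⟩
  intro c hc hcT c' hc' k hk
  refine bound_on_ball hd hψ (hT2 c hc (fun x hx => hm4.trans_lt (hcT x hx))) ?_ hm2 c'
    (ball_subset_ball hm3 hc') k (by omega)
  unfold sb
  positivity

end Pool.Agent.Helper32.LD
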