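import Pool.Agent.Helper32.LD.Tree

/-! Large deviations of the Marcinkiewicz sums: coverings. -/

set_option autoImplicit false

open Complex Topology Filter Metric MeasureTheory Set

namespace Pool.Agent.Helper32.LD

open Pool.Agent.H637R4.PO Pool.Agent.H637R4.PO.SQx

theorem mm_le {K : Set ℂ} {l : ℝ} (hl : 0 < l) {c : ℂ} (hc : c ∈ K) (i : ℕ) :
    ∃ τ : Bool × Bool, mm K l c ((1 / 2 : ℝ) ^ (i + 1)) ≤ 4 * 2 ^ l * aa K l τ i (idx τ i c) := by
  obtain ⟨τ, hτ⟩ := t_THIRD i c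
  refine ⟨τ, ?_⟩
  have hv := (vol_sq τ i (idx τ i c)).1
  have hρ : (2 : ℝ) * (1 / 2) ^ (i + 1) = (1 / 2) ^ i := by rw [pow_succ]; ring
  have hsub : ball c ((1 / 2 : ℝ) ^ i) ⊆ sq τ i (idx τ i c) := fun z hz => hτ z hz
  have hi0 : (0 : ℝ) < (2 ^ i) ^ l := by positivity
  have hu : ∀ z ∈ sq τ i (idx τ i c), (infDist z K) ^ l = ((2 ^ i : ℝ) ^ l)⁻¹ * u K l i z := by
    intro z hz
    have h1 : infDist z K ≤ 12 * (1 / 2 : ℝ) ^ i :=
      (infDist_le_dist_of_mem hc).trans (dist_sq (τ := τ) hz)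
    unfold u
    rw [if_pos h1, Real.mul_rpow (by positivity) infDist_nonneg]
    field_simp
  have hint : IntegrableOn (fun z => ((2 ^ i : ℝ) ^ l)⁻¹ * u K l i z) (sq τ i (idx τ i c)) := by
    rw [u_eq]
    exact (us_int hl _ _ hv).const_mul _
  have hint2 : IntegrableOn (fun z => (infDist z K) ^ l) (sq τ i (idx τ i c)) :=
    hint.congr_fun (fun z hz => (hu z hz).symm) (meas_sq τ i _)
  have h2 : ∫ z in ball c ((1 / 2 : ℝ) ^ i), (infDist z K) ^ l ≤
      ∫ z in sq τ i (idx τ i c), (infDist z K) ^ l := by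
    apply setIntegral_mono_set hint2
    · exact Eventually.of_forall fun z => Real.rpow_nonneg infDist_nonneg _
    · exact LE.le.eventuallyLE hsub
  have h3 : ∫ z in sq τ i (idx τ i c), (infDist z K) ^ l =
      ((2 ^ i : ℝ) ^ l)⁻¹ * ∫ z in sq τ i (idx τ i c), u K l i z := by
    rw [← integral_const_mul]
    exact setIntegral_congr_fun (meas_sq τ i _) hu
  unfold mm
  rw [hρ]
  rw [h3] at h2
  have hpow : ((1 / 2 : ℝ) ^ (i + 1)) ^ (2 + l) = (4 * 2 ^ l * 4 ^ i * (2 ^ i : ℝ) ^ l)⁻¹ := by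
    rw [Real.rpow_add (by positivity), one_div, inv_pow, Real.inv_rpow (by positivity),
      Real.inv_rpow (by positivity), pow_succ, Real.mul_rpow (by positivity) (by norm_num),
      Real.mul_rpow (by positivity) (by norm_num), ← mul_inv]
    congr 1
    have e1 : ((2 : ℝ) ^ i) ^ (2 : ℝ) = 4 ^ i := by
      rw [Real.rpow_two, ← pow_mul, mul_comm, pow_mul]
      norm_num
    have e2 : (2 : ℝ) ^ (2 : ℝ) = 4 := by
      rw [Real.rpow_two]
      norm_num
    rw [e1, e2]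
    ring
  rw [hpow, div_inv_eq_mul]
  unfold aa
  have h4 : 0 < 4 * (2 : ℝ) ^ l * 4 ^ i * (2 ^ i : ℝ) ^ l := by positivity
  calc (∫ z in ball c ((1 / 2 : ℝ) ^ i), (infDist z K) ^ l) *
        (4 * (2 : ℝ) ^ l * 4 ^ i * (2 ^ i : ℝ) ^ l)
      ≤ (((2 ^ i : ℝ) ^ l)⁻¹ * ∫ z in sq τ i (idx τ i c), u K l i z) *
        (4 * (2 : ℝ) ^ l * 4 ^ i * (2 ^ i : ℝ) ^ l) := mul_le_mul_of_nonneg_right h2 h4.le
    _ = 4 * 2 ^ l * (4 ^ i * ∫ z in sq τ i (idx τ i c), u K l i z) := by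
        field_simp

theorem mm_zero {K : Set ℂ} {l : ℝ} (hl : 0 < l) {c : ℂ} (hc : c ∈ K) :
    mm K l c 1 ≤ 2 ^ l * (4 * Real.pi) := by
  unfold mm
  rw [Real.one_rpow, div_one, mul_one]
  have h1 := norm_setIntegral_le_of_norm_le_const (μ := volume) (s := ball c 2)
    (f := fun z => (infDist z K) ^ l) (C := 2 ^ l) measure_ball_lt_top (fun z hz => by
      rw [Real.norm_of_nonneg (Real.rpow_nonneg infDist_nonneg _)]
      apply Real.rpow_le_rpow infDist_nonneg _ hl.le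
      exact (infDist_le_dist_of_mem hc).trans (mem_ball.1 hz).le)
  refine (Real.le_norm_self _).trans (h1.trans (le_of_eq ?_))
  rw [measureReal_def, Complex.volume_ball, ENNReal.toReal_mul, ENNReal.toReal_pow,
    ENNReal.toReal_ofReal (by norm_num)]
  simp
  left
  ring

theorem sum_mm {K : Set ℂ} {l : ℝ} (hl : 0 < l) {c : ℂ} (hc : c ∈ K) (N : ℕ) :
    ∑ k ∈ Finset.range N, mm K l c ((1 / 2 : ℝ) ^ k) ≤ 2 ^ l * (4 * Real.pi) +
      4 * 2 ^ l * ∑ τ : Bool × Bool, ∑ i ∈ Finset.range N, aa K l τ i (idx τ i c) := by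
  have h0 : ∀ i, mm K l c ((1 / 2 : ℝ) ^ (i + 1)) ≤
      4 * 2 ^ l * ∑ τ : Bool × Bool, aa K l τ i (idx τ i c) := by
    intro i
    obtain ⟨τ, hτ⟩ := mm_le hl hc i
    refine hτ.trans (mul_le_mul_of_nonneg_left ?_ (by positivity))
    exact Finset.single_le_sum (f := fun τ => aa K l τ i (idx τ i c))
      (fun τ _ => aa_nonneg K l τ i _) (Finset.mem_univ τ)
  rcases Nat.eq_zero_or_pos N with h | h
  · rw [h]
    simp only [Finset.range_zero, Finset.sum_empty, Finset.sum_const_zero, mul_zero, add_zero]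
    positivity
  · obtain ⟨n, rfl⟩ : ∃ n, N = n + 1 := ⟨N - 1, by omega⟩
    rw [Finset.sum_range_succ', pow_zero, Finset.sum_comm]
    have h1 := mm_zero hl hc
    have h2 : ∑ k ∈ Finset.range n, mm K l c ((1 / 2 : ℝ) ^ (k + 1)) ≤
        4 * 2 ^ l * ∑ i ∈ Finset.range n, ∑ τ : Bool × Bool, aa K l τ i (idx τ i c) := by
      rw [Finset.mul_sum]
      exact Finset.sum_le_sum fun i _ => h0 i
    have h3 : ∑ i ∈ Finset.range n, ∑ τ : Bool × Bool, aa K l τ i (idx τ i c) ≤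
        ∑ i ∈ Finset.range (n + 1), ∑ τ : Bool × Bool, aa K l τ i (idx τ i c) := by
      rw [Finset.sum_range_succ]
      have : 0 ≤ ∑ τ : Bool × Bool, aa K l τ n (idx τ n c) :=
        Finset.sum_nonneg fun τ _ => aa_nonneg K l τ n _
      linarith
    have h4 := mul_le_mul_of_nonneg_left h3 (by positivity : (0 : ℝ) ≤ 4 * 2 ^ l)
    linarith

/-- Large deviations: the points of `K` where the Marcinkiewicz sum of the first `N` scales is at
least `lam` are covered by at most `C 4^N exp (-κ lam)` discs of radius `2^(-N)`. -/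
theorem large_dev {K : Set ℂ} (hK : K ⊆ closedBall 0 2) {l : ℝ} (hl : 0 < l) :
    ∃ κ : ℝ, 0 < κ ∧ ∃ C : ℝ, 0 < C ∧ ∀ (N : ℕ) (lam : ℝ), ∃ T : Finset ℂ,
      (T.card : ℝ) ≤ C * 4 ^ N * Real.exp (-(κ * lam)) ∧
      ∀ c ∈ K, lam ≤ ∑ k ∈ Finset.range N, mm K l c ((1 / 2 : ℝ) ^ k) →
        ∃ x ∈ T, dist c x ≤ (1 / 2 : ℝ) ^ N := by
  classical
  have hC1 := C1_pos hl
  set κ₀ : ℝ := 1 / (2 * C1 l) with hκ₀
  have hκ₀0 : 0 < κ₀ := by positivity
  have hκ₀1 : 2 * κ₀ * C1 l ≤ 1 := by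
    rw [hκ₀]
    apply le_of_eq
    field_simp
  have h2l : (0 : ℝ) < 2 ^ l := by positivity
  set κ : ℝ := κ₀ / (16 * 2 ^ l) with hκ
  have hκ0 : 0 < κ := by positivity
  refine ⟨κ, hκ0, 204800 * Real.exp (κ * (2 ^ l * (4 * Real.pi))), by positivity, ?_⟩
  intro N lam
  set lam' : ℝ := (lam - 2 ^ l * (4 * Real.pi)) / (16 * 2 ^ l) with hlam'
  have hF := fun τ => count hK hl hκ₀0 hκ₀1 τ N lam'
  choose F hF1 hF2 using hF
  refine ⟨Finset.univ.biUnion (fun τ : Bool × Bool =>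
    ((F τ) ×ˢ (Finset.range 16 ×ˢ Finset.range 16)).image (fun w => COV_pt τ N w.1 w.2)), ?_, ?_⟩
  · have h1 : ∀ τ : Bool × Bool, ((((F τ) ×ˢ (Finset.range 16 ×ˢ Finset.range 16)).image
        (fun w => COV_pt τ N w.1 w.2)).card : ℝ) ≤
        256 * (200 * 4 ^ N * Real.exp (-(κ₀ * lam'))) := by
      intro τ
      have h3 : (((F τ) ×ˢ (Finset.range 16 ×ˢ Finset.range 16)).image
          (fun w => COV_pt τ N w.1 w.2)).card ≤ (F τ).card * 256 := by
        refine Finset.card_image_le.trans ?_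
        rw [Finset.card_product, Finset.card_product, Finset.card_range]
      calc _ ≤ (((F τ).card * 256 : ℕ) : ℝ) := by exact_mod_cast h3
        _ = 256 * (F τ).card := by push_cast; ring
        _ ≤ _ := mul_le_mul_of_nonneg_left (hF1 τ) (by norm_num)
    have h2 : κ₀ * lam' = κ * lam - κ * (2 ^ l * (4 * Real.pi)) := by
      rw [hlam', hκ]
      field_simp
    calc _ ≤ ((∑ τ : Bool × Bool, (((F τ) ×ˢ (Finset.range 16 ×ˢ Finset.range 16)).image
        (fun w => COV_pt τ N w.1 w.2)).card : ℕ) : ℝ) := by exact_mod_cast Finset.card_biUnion_le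
      _ = ∑ τ : Bool × Bool, ((((F τ) ×ˢ (Finset.range 16 ×ˢ Finset.range 16)).image
        (fun w => COV_pt τ N w.1 w.2)).card : ℝ) := by push_cast; rfl
      _ ≤ ∑ _τ : Bool × Bool, 256 * (200 * 4 ^ N * Real.exp (-(κ₀ * lam'))) :=
        Finset.sum_le_sum fun τ _ => h1 τ
      _ = 4 * (256 * (200 * 4 ^ N * Real.exp (-(κ₀ * lam')))) := by
        rw [Finset.sum_const]
        simp only [Finset.card_univ, Fintype.card_prod, Fintype.card_bool, nsmul_eq_mul]
        push_cast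
        ring
      _ = 204800 * Real.exp (κ * (2 ^ l * (4 * Real.pi))) * 4 ^ N * Real.exp (-(κ * lam)) := by
        have e : -(κ * lam - κ * (2 ^ l * (4 * Real.pi))) =
          κ * (2 ^ l * (4 * Real.pi)) + -(κ * lam) := by ring
        rw [h2, e, Real.exp_add]
        ring
  · intro c hc hsum
    have h1 := hsum.trans (sum_mm hl hc N)
    obtain ⟨τ, hτ⟩ : ∃ τ : Bool × Bool, lam' ≤ ∑ i ∈ Finset.range N, aa K l τ i (idx τ i c) := by
      by_contra hcon
      push Not at hcon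
      have h2 : ∑ τ : Bool × Bool, ∑ i ∈ Finset.range N, aa K l τ i (idx τ i c) <
          ∑ _τ : Bool × Bool, lam' :=
        Finset.sum_lt_sum_of_nonempty Finset.univ_nonempty fun τ _ => hcon τ
      rw [Finset.sum_const] at h2
      simp only [Finset.card_univ, Fintype.card_prod, Fintype.card_bool, nsmul_eq_mul] at h2
      push_cast at h2
      have h3 := mul_lt_mul_of_pos_left h2 (by positivity : (0 : ℝ) < 4 * 2 ^ l)
      have h4 : 4 * (2 : ℝ) ^ l * (4 * lam') = lam - 2 ^ l * (4 * Real.pi) := by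
        rw [hlam']
        field_simp
        ring
      linarith
    have hmem := hF2 τ c hc hτ
    obtain ⟨w, hw, hw'⟩ := COV_cover τ N N le_rfl c
    refine ⟨_, ?_, hw'⟩
    rw [Finset.mem_biUnion]
    refine ⟨τ, Finset.mem_univ _, ?_⟩
    rw [Finset.mem_image]
    exact ⟨(idx τ N c, w), Finset.mem_product.mpr ⟨hmem, hw⟩, rfl⟩

end Pool.Agent.Helper32.LD
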