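import Pool.Agent.Helper32.LD.Cov
import Pool.Agent.H637R4.PO.Fin2

/-! Large deviations: decay of the exterior coordinate outside a small set. -/

set_option autoImplicit false

open Complex Topology Filter Metric MeasureTheory Set N62a1eb23
open Pool.Agent.H713R2 Pool.Agent.H713R2.AR

namespace Pool.Agent.Helper32.LD

open Pool.Agent.H637R4.PO

/-- the constant of the step -/
noncomputable def ka (l : ℝ) : ℝ := 1 / (200 : ℝ) ^ (2 + l)

theorem ka_pos (l : ℝ) : 0 < ka l := by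
  unfold ka
  positivity

theorem iter_fin {K : Set ℂ} {ψ : ℂ → ℂ} (hψ : Ext K ψ) {c : ℂ} {U l B : ℝ} (hc : c ∈ K)
    (hU : 0 < U) (hl : 0 < l) (hB : 0 < B) (hB1 : Bnd ψ c 1 U) {N : ℕ}
    (hmm : ∀ k < N, 0 < mm K l c ((1 / 2 : ℝ) ^ k))
    (hsum : ∑ k ∈ Finset.range N, mm K l c ((1 / 2 : ℝ) ^ k) ≤ B) :
    Bnd ψ c ((1 / 2 : ℝ) ^ N) (sb U ((ka l / B) ^ (1 / (1 + l))) l N) := by
  set a : ℝ := ka l with ha
  have ha0 : 0 < a := ka_pos l
  set τ : ℕ → ℝ := fun k => (a / mm K l c ((1 / 2 : ℝ) ^ k)) ^ (1 / (1 + l)) with hτ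
  have key : ∀ n : ℕ, n ≤ N → Bnd ψ c ((1 / 2 : ℝ) ^ n)
      (U * 2 ^ n * (2 : ℝ) ^ (-(∑ k ∈ Finset.range n, τ k))) := by
    intro n
    induction n with
    | zero =>
      intro _
      simp only [pow_zero, Finset.range_zero, Finset.sum_empty, neg_zero, Real.rpow_zero, mul_one]
      exact hB1
    | succ n ih =>
      intro hn
      have h1 := f_STEP2 K ψ hψ c ((1 / 2 : ℝ) ^ n)
        (U * 2 ^ n * (2 : ℝ) ^ (-(∑ k ∈ Finset.range n, τ k))) l hc (by positivity)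
        (by positivity) hl (hmm n (by omega)) (ih (by omega))
      have h2 : (1 / 2 : ℝ) ^ n / 2 = (1 / 2 : ℝ) ^ (n + 1) := by rw [pow_succ]; ring
      have h3 : 2 * (U * 2 ^ n * (2 : ℝ) ^ (-(∑ k ∈ Finset.range n, τ k))) *
          (2 : ℝ) ^ (-((1 / (200 : ℝ) ^ (2 + l) / mm K l c ((1 / 2 : ℝ) ^ n)) ^ (1 / (1 + l)))) =
          U * 2 ^ (n + 1) * (2 : ℝ) ^ (-(∑ k ∈ Finset.range (n + 1), τ k)) := by
        have e1 : (2 : ℝ) ^ (-(∑ k ∈ Finset.range (n + 1), τ k)) =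
            (2 : ℝ) ^ (-(∑ k ∈ Finset.range n, τ k)) * (2 : ℝ) ^ (-(τ n)) := by
          rw [← Real.rpow_add (by norm_num), Finset.sum_range_succ, neg_add]
        have e2 : (1 / (200 : ℝ) ^ (2 + l) / mm K l c ((1 / 2 : ℝ) ^ n)) ^ (1 / (1 + l)) = τ n := rfl
        rw [e1, e2]
        ring
      rw [h2, h3] at h1
      exact h1
  intro w hw hwb
  refine (key N le_rfl w hw hwb).trans ?_
  unfold sb
  refine mul_le_mul_of_nonneg_left ?_ (by positivity)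
  refine Real.rpow_le_rpow_of_exponent_le (by norm_num) ?_
  have h4 := t_SUML l a B (fun k => mm K l c ((1 / 2 : ℝ) ^ k)) N hl ha0 hB hmm hsum
  linarith

/-- The exterior coordinate decays fast outside a small set. -/
theorem decay {K : Set ℂ} {ψ : ℂ → ℂ} (hψ : Ext K ψ) (hcl : IsClosed K)
    (hK : K ⊆ closedBall 0 2) {l η : ℝ} (hl : 0 < l) :
    ∃ κ : ℝ, 0 < κ ∧ ∃ C : ℝ, 0 < C ∧ ∃ U : ℝ, 0 < U ∧ ∀ N : ℕ, 1 ≤ N → ∃ T : Finset ℂ,
      (T.card : ℝ) ≤ C * 4 ^ N * Real.exp (-(κ * (N : ℝ) ^ η)) ∧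
      ∀ c ∈ K, (∀ x ∈ T, (1 / 2 : ℝ) ^ N < dist c x) →
        Bnd ψ c ((1 / 2 : ℝ) ^ N) (sb U ((ka l / (N : ℝ) ^ η) ^ (1 / (1 + l))) l N) := by
  obtain ⟨κ, hκ, C, hC, h1⟩ := large_dev hK hl
  obtain ⟨U, hU, hUB⟩ := f_UB K ψ hψ 3
  refine ⟨κ, hκ, C, hC, U, hU, ?_⟩
  intro N hN
  have hN0 : (0 : ℝ) < N := by exact_mod_cast hN
  obtain ⟨T, hT1, hT2⟩ := h1 N ((N : ℝ) ^ η)
  refine ⟨T, hT1, ?_⟩
  intro c hc hcT
  have hBpos : 0 < (N : ℝ) ^ η := Real.rpow_pos_of_pos hN0 _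
  have hsum : ∑ k ∈ Finset.range N, mm K l c ((1 / 2 : ℝ) ^ k) ≤ (N : ℝ) ^ η := by
    by_contra hcon
    push Not at hcon
    obtain ⟨x, hx, hx2⟩ := hT2 c hc hcon.le
    exact absurd hx2 (not_le.2 (hcT x hx))
  by_cases hall : ∀ k < N, 0 < mm K l c ((1 / 2 : ℝ) ^ k)
  · refine iter_fin hψ hc hU hl hBpos ?_ hall hsum
    intro w hw hwb
    apply hUB w hw
    have h2 : ‖c‖ ≤ 2 := by simpa using hK hc
    rw [mem_ball, dist_eq_norm] at hwb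
    have := norm_sub_norm_le (ψ w) c
    linarith
  · push Not at hall
    obtain ⟨k, hk, hk2⟩ := hall
    have hρ : (0 : ℝ) < (1 / 2 : ℝ) ^ k := by positivity
    have hball := t_NUL K hcl c ((1 / 2 : ℝ) ^ k) l hc hρ hl hk2
    intro w hw hwb
    exfalso
    have h2 : ψ w ∈ Kᶜ := by
      rw [← hψ.image]
      exact mem_image_of_mem ψ hw
    have h3 : (1 / 2 : ℝ) ^ N ≤ (1 / 2 : ℝ) ^ k :=
      pow_le_pow_of_le_one (by norm_num) (by norm_num) hk.le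
    exact h2 (hball (ball_subset_ball (by linarith) hwb))

end Pool.Agent.Helper32.LD
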