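import Pool.Agent.H637R4.PO.SQ
import Pool.Agent.H637R4.PO.COV
import Pool.Agent.H637R4.PO.THIRD
import Pool.Agent.H637R4.PO.Defs2

/-! Large deviations of the Marcinkiewicz sums: squares and averages. -/

set_option autoImplicit false

open Complex Topology Filter Metric MeasureTheory Set

namespace Pool.Agent.Helper32.LD

open Pool.Agent.H637R4.PO Pool.Agent.H637R4.PO.SQx

/-- the square with a given index -/
def sq (τ : Bool × Bool) (k : ℕ) (v : ℤ × ℤ) : Set ℂ := {z | idx τ k z = v}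

theorem meas_idx (τ : Bool × Bool) (k : ℕ) : Measurable (idx τ k) := by
  unfold idx
  refine Measurable.prodMk ?_ ?_
  · refine Int.measurable_floor.comp ?_
    exact ((Complex.measurable_re.sub_const _).mul_const _).div_const _
  · refine Int.measurable_floor.comp ?_
    exact ((Complex.measurable_im.sub_const _).mul_const _).div_const _

theorem meas_sq (τ : Bool × Bool) (k : ℕ) (v : ℤ × ℤ) : MeasurableSet (sq τ k v) :=
  meas_idx τ k (measurableSet_singleton v)

theorem dist_one {x y s : ℝ} {k : ℕ} (h : ⌊(x - s) * 2 ^ k / 8⌋ = ⌊(y - s) * 2 ^ k / 8⌋) :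
    |x - y| ≤ 8 * (1 / 2 : ℝ) ^ k := by
  have hk : (0 : ℝ) < 2 ^ k := by positivity
  have h1 := Int.abs_sub_lt_one_of_floor_eq_floor h
  have e : (x - s) * 2 ^ k / 8 - (y - s) * 2 ^ k / 8 = (x - y) * (2 ^ k / 8) := by ring
  rw [e, abs_mul, abs_of_pos (by positivity : (0 : ℝ) < 2 ^ k / 8)] at h1
  rw [one_div_pow, mul_one_div, le_div_iff₀ hk]
  linarith

theorem dist_sq {τ : Bool × Bool} {k : ℕ} {z z' : ℂ} (h : idx τ k z = idx τ k z') :
    dist z z' ≤ 12 * (1 / 2 : ℝ) ^ k := by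
  unfold idx at h
  rw [Prod.ext_iff] at h
  have h1 := dist_one h.1
  have h2 := dist_one h.2
  have hk : (0 : ℝ) < (1 / 2 : ℝ) ^ k := by positivity
  rw [dist_eq_norm]
  have h3 : ‖z - z'‖ ^ 2 ≤ (12 * (1 / 2 : ℝ) ^ k) ^ 2 := by
    rw [Complex.sq_norm, Complex.normSq_apply, Complex.sub_re, Complex.sub_im]
    have h4 := abs_le.1 h1
    have h5 := abs_le.1 h2
    nlinarith [sq_abs (z.re - z'.re), sq_abs (z.im - z'.im), abs_nonneg (z.re - z'.re),
      abs_nonneg (z.im - z'.im)]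
  exact le_of_sq_le_sq h3 (by positivity)
  where
  le_of_sq_le_sq {a b : ℝ} (h : a ^ 2 ≤ b ^ 2) (hb : 0 ≤ b) : a ≤ b := by
    by_contra hcon
    push Not at hcon
    nlinarith

theorem sq_sub {τ : Bool × Bool} {k : ℕ} (v : ℤ × ℤ) :
    ∃ z, sq τ k v ⊆ closedBall z (12 * (1 / 2 : ℝ) ^ k) := by
  rcases (sq τ k v).eq_empty_or_nonempty with h | ⟨z, hz⟩
  · exact ⟨0, by rw [h]; exact empty_subset _⟩
  · refine ⟨z, fun w hw => ?_⟩
    rw [mem_closedBall]
    apply dist_sq (τ := τ)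
    have h1 : idx τ k w = v := hw
    have h2 : idx τ k z = v := hz
    rw [h1, h2]

theorem vol_sq (τ : Bool × Bool) (k : ℕ) (v : ℤ × ℤ) :
    volume (sq τ k v) < ⊤ ∧ volume.real (sq τ k v) ≤ 144 * Real.pi * (1 / 4 : ℝ) ^ k := by
  obtain ⟨z, hz⟩ := sq_sub (τ := τ) (k := k) v
  have h1 : volume (closedBall z (12 * (1 / 2 : ℝ) ^ k)) < ⊤ := measure_closedBall_lt_top
  refine ⟨(measure_mono hz).trans_lt h1, ?_⟩
  refine (measureReal_mono hz h1.ne).trans (le_of_eq ?_)
  rw [measureReal_def, Complex.volume_closedBall, ENNReal.toReal_mul, ENNReal.toReal_pow,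
    ENNReal.toReal_ofReal (by positivity)]
  have : (1 / 4 : ℝ) ^ k = ((1 / 2 : ℝ) ^ k) ^ 2 := by
    rw [← pow_mul, mul_comm k 2, pow_mul]
    norm_num
  rw [this]
  simp
  ring

theorem sq_part (τ : Bool × Bool) (k : ℕ) (v : ℤ × ℤ) :
    sq τ k v = ⋃ w ∈ Fib 1 v, sq τ (k + 1) w := by
  ext z
  rw [mem_iUnion₂]
  constructor
  · intro h
    refine ⟨idx τ (k + 1) z, ?_, rfl⟩
    rw [mem_Fib, par_idx]
    exact h
  · rintro ⟨w, hw, h⟩
    rw [mem_Fib] at hw
    have h' : idx τ (k + 1) z = w := h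
    show idx τ k z = v
    rw [← hw, ← h', par_idx]

/-- the density -/
noncomputable def u (K : Set ℂ) (l : ℝ) (j : ℕ) (z : ℂ) : ℝ :=
  if infDist z K ≤ 12 * (1 / 2 : ℝ) ^ j then (2 ^ j * infDist z K) ^ l else 0

theorem u_nonneg (K : Set ℂ) (l : ℝ) (j : ℕ) (z : ℂ) : 0 ≤ u K l j z := by
  unfold u
  split_ifs
  · exact Real.rpow_nonneg (mul_nonneg (by positivity) infDist_nonneg) _
  · exact le_rfl

theorem u_meas (K : Set ℂ) (l : ℝ) (j : ℕ) : Measurable (u K l j) := by
  unfold u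
  have h := (continuous_infDist_pt K).measurable
  refine Measurable.ite ?_ ?_ measurable_const
  · exact measurableSet_le h measurable_const
  · exact (h.const_mul _).pow_const _

/-- the sum of the densities -/
noncomputable def us (K : Set ℂ) (l : ℝ) (i t : ℕ) (z : ℂ) : ℝ := ∑ j ∈ Finset.Ico i t, u K l j z

theorem us_nonneg (K : Set ℂ) (l : ℝ) (i t : ℕ) (z : ℂ) : 0 ≤ us K l i t z :=
  Finset.sum_nonneg fun j _ => u_nonneg K l j z

theorem us_meas (K : Set ℂ) (l : ℝ) (i t : ℕ) : Measurable (us K l i t) := by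
  unfold us
  exact Finset.measurable_sum _ fun j _ => u_meas K l j

/-- the bound of the sum -/
noncomputable def C0 (l : ℝ) : ℝ := 12 ^ l / (1 - (1 / 2 : ℝ) ^ l)

theorem q_lt {l : ℝ} (hl : 0 < l) : (1 / 2 : ℝ) ^ l < 1 :=
  Real.rpow_lt_one (by norm_num) (by norm_num) hl

theorem C0_pos {l : ℝ} (hl : 0 < l) : 0 < C0 l := by
  have := q_lt hl
  unfold C0
  exact div_pos (by positivity) (by linarith)

theorem sum_aux {K : Set ℂ} {l : ℝ} (hl : 0 < l) (z : ℂ) (t : ℕ) :
    ∑ j ∈ Finset.range t, u K l j z ≤ (2 ^ t * infDist z K) ^ l * ((1 / 2 : ℝ) ^ l /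
      (1 - (1 / 2 : ℝ) ^ l)) := by
  have hq := q_lt hl
  have hq0 : 0 < (1 / 2 : ℝ) ^ l := by positivity
  have hd : 0 ≤ infDist z K := infDist_nonneg
  induction t with
  | zero =>
    rw [Finset.range_zero, Finset.sum_empty]
    exact mul_nonneg (Real.rpow_nonneg (by positivity) _) (div_nonneg hq0.le (by linarith))
  | succ t ih =>
    rw [Finset.sum_range_succ]
    have h1 : u K l t z ≤ (2 ^ t * infDist z K) ^ l := by
      unfold u
      split_ifs
      · exact le_rfl
      · exact Real.rpow_nonneg (by positivity) _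
    have h2 : (2 ^ (t + 1) * infDist z K) ^ l * (1 / 2 : ℝ) ^ l = (2 ^ t * infDist z K) ^ l := by
      rw [← Real.mul_rpow (by positivity) (by norm_num)]
      congr 1
      rw [pow_succ]
      ring
    have h3 : (2 ^ (t + 1) * infDist z K) ^ l * ((1 / 2 : ℝ) ^ l / (1 - (1 / 2 : ℝ) ^ l)) =
        (2 ^ t * infDist z K) ^ l * ((1 / 2 : ℝ) ^ l / (1 - (1 / 2 : ℝ) ^ l)) +
        (2 ^ t * infDist z K) ^ l := by
      rw [← mul_div_assoc, h2]
      have : 1 - (1 / 2 : ℝ) ^ l ≠ 0 := by linarith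
      field_simp
      ring
    rw [h3]
    linarith

theorem sum_le {K : Set ℂ} {l : ℝ} (hl : 0 < l) (z : ℂ) (t : ℕ) :
    ∑ j ∈ Finset.range t, u K l j z ≤ C0 l := by
  have hq := q_lt hl
  have hq0 : 0 < (1 / 2 : ℝ) ^ l := by positivity
  have hd : 0 ≤ infDist z K := infDist_nonneg
  induction t with
  | zero =>
    rw [Finset.range_zero, Finset.sum_empty]
    exact (C0_pos hl).le
  | succ t ih =>
    by_cases h : infDist z K ≤ 12 * (1 / 2 : ℝ) ^ t
    · refine (sum_aux hl z (t + 1)).trans ?_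
      have h2 : (2 ^ (t + 1) * infDist z K) ^ l * (1 / 2 : ℝ) ^ l = (2 ^ t * infDist z K) ^ l := by
        rw [← Real.mul_rpow (by positivity) (by norm_num)]
        congr 1
        rw [pow_succ]
        ring
      rw [← mul_div_assoc, h2]
      unfold C0
      apply div_le_div_of_nonneg_right _ (by linarith)
      apply Real.rpow_le_rpow (by positivity) _ hl.le
      calc 2 ^ t * infDist z K ≤ 2 ^ t * (12 * (1 / 2 : ℝ) ^ t) :=
            mul_le_mul_of_nonneg_left h (by positivity)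
        _ = 12 := by
            rw [one_div_pow]
            field_simp
    · rw [Finset.sum_range_succ]
      have h1 : u K l t z = 0 := by
        unfold u
        rw [if_neg h]
      rw [h1, add_zero]
      exact ih

theorem us_le {K : Set ℂ} {l : ℝ} (hl : 0 < l) (z : ℂ) (i t : ℕ) : us K l i t z ≤ C0 l := by
  refine le_trans ?_ (sum_le (K := K) hl z t)
  unfold us
  apply Finset.sum_le_sum_of_subset_of_nonneg
  · intro j hj
    rw [Finset.mem_range]
    exact (Finset.mem_Ico.1 hj).2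
  · intro j _ _
    exact u_nonneg K l j z

theorem us_int {K : Set ℂ} {l : ℝ} (hl : 0 < l) (i t : ℕ) {S : Set ℂ} (hS : volume S < ⊤) :
    IntegrableOn (us K l i t) S := by
  refine IntegrableOn.of_bound hS (us_meas K l i t).aestronglyMeasurable (C0 l) ?_
  refine Eventually.of_forall fun z => ?_
  rw [Real.norm_of_nonneg (us_nonneg K l i t z)]
  exact us_le hl z i t

theorem u_eq (K : Set ℂ) (l : ℝ) (i : ℕ) : u K l i = us K l i (i + 1) := by
  funext z
  unfold us
  simp

/-- the average over a square -/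
noncomputable def DD (K : Set ℂ) (l : ℝ) (τ : Bool × Bool) (i t : ℕ) (v : ℤ × ℤ) : ℝ :=
  4 ^ i * ∫ z in sq τ i v, us K l i t z

/-- the first term -/
noncomputable def aa (K : Set ℂ) (l : ℝ) (τ : Bool × Bool) (i : ℕ) (v : ℤ × ℤ) : ℝ :=
  4 ^ i * ∫ z in sq τ i v, u K l i z

theorem DD_nonneg (K : Set ℂ) (l : ℝ) (τ : Bool × Bool) (i t : ℕ) (v : ℤ × ℤ) :
    0 ≤ DD K l τ i t v :=
  mul_nonneg (by positivity) (integral_nonneg fun z => us_nonneg K l i t z)

theorem aa_nonneg (K : Set ℂ) (l : ℝ) (τ : Bool × Bool) (i : ℕ) (v : ℤ × ℤ) :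
    0 ≤ aa K l τ i v :=
  mul_nonneg (by positivity) (integral_nonneg fun z => u_nonneg K l i z)

/-- the bound of the averages -/
noncomputable def C1 (l : ℝ) : ℝ := 144 * Real.pi * C0 l

theorem C1_pos {l : ℝ} (hl : 0 < l) : 0 < C1 l := by
  have := C0_pos hl
  unfold C1
  positivity

theorem DD_le {K : Set ℂ} {l : ℝ} (hl : 0 < l) (τ : Bool × Bool) (i t : ℕ) (v : ℤ × ℤ) :
    DD K l τ i t v ≤ C1 l := by
  obtain ⟨h1, h2⟩ := vol_sq τ i v
  have h3 := norm_setIntegral_le_of_norm_le_const (μ := volume) (f := us K l i t) (C := C0 l) h1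
    (fun z _ => by
      rw [Real.norm_of_nonneg (us_nonneg K l i t z)]
      exact us_le hl z i t)
  have h4 : ∫ z in sq τ i v, us K l i t z ≤ C0 l * (144 * Real.pi * (1 / 4 : ℝ) ^ i) :=
    (Real.le_norm_self _).trans (h3.trans (mul_le_mul_of_nonneg_left h2 (C0_pos hl).le))
  unfold DD C1
  calc 4 ^ i * ∫ z in sq τ i v, us K l i t z ≤ 4 ^ i * (C0 l * (144 * Real.pi * (1 / 4 : ℝ) ^ i)) :=
        mul_le_mul_of_nonneg_left h4 (by positivity)
    _ = 144 * Real.pi * C0 l := by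
        rw [one_div_pow]
        field_simp

theorem DD_rec {K : Set ℂ} {l : ℝ} (hl : 0 < l) (τ : Bool × Bool) {i t : ℕ} (hit : i < t)
    (v : ℤ × ℤ) : 4 * (DD K l τ i t v - aa K l τ i v) = ∑ w ∈ Fib 1 v, DD K l τ (i + 1) t w := by
  have h1 : ∀ z, us K l i t z = u K l i z + us K l (i + 1) t z := by
    intro z
    unfold us
    exact Finset.sum_eq_sum_Ico_succ_bot hit _
  have hv := (vol_sq τ i v).1
  have h2 : ∫ z in sq τ i v, us K l i t z =
      (∫ z in sq τ i v, u K l i z) + ∫ z in sq τ i v, us K l (i + 1) t z := by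
    rw [← integral_add]
    · exact integral_congr_ae (Eventually.of_forall h1)
    · rw [u_eq]
      exact us_int hl _ _ hv
    · exact us_int hl _ _ hv
  have h3 : ∫ z in sq τ i v, us K l (i + 1) t z =
      ∑ w ∈ Fib 1 v, ∫ z in sq τ (i + 1) w, us K l (i + 1) t z := by
    rw [sq_part]
    apply integral_biUnion_finset
    · intro w _
      exact meas_sq τ (i + 1) w
    · intro w _ w' _ hww
      apply disjoint_left.2
      intro z hz hz'
      have e1 : idx τ (i + 1) z = w := hz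
      have e2 : idx τ (i + 1) z = w' := hz'
      exact hww (e1.symm.trans e2)
    · intro w _
      exact us_int hl _ _ (vol_sq τ (i + 1) w).1
  unfold DD aa
  rw [h2, h3, ← Finset.mul_sum, pow_succ]
  ring

theorem aa_le {K : Set ℂ} {l : ℝ} (hl : 0 < l) (τ : Bool × Bool) {i t : ℕ} (hit : i < t)
    (v : ℤ × ℤ) : aa K l τ i v ≤ DD K l τ i t v := by
  have h := DD_rec (K := K) hl τ hit v
  have h2 : 0 ≤ ∑ w ∈ Fib 1 v, DD K l τ (i + 1) t w :=
    Finset.sum_nonneg fun w _ => DD_nonneg _ _ _ _ _ _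
  linarith

end Pool.Agent.Helper32.LD
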