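import Pool.Agent.Helper32.LD.Sq

/-! Large deviations of the Marcinkiewicz sums: the exponential moment. -/

set_option autoImplicit false

open Complex Topology Filter Metric MeasureTheory Set

namespace Pool.Agent.Helper32.LD

open Pool.Agent.H637R4.PO Pool.Agent.H637R4.PO.SQx

open Classical in
/-- squares of level `s` that meet `K` -/
noncomputable def V (K : Set ℂ) (τ : Bool × Bool) (s : ℕ) : Finset (ℤ × ℤ) :=
  (box τ s).filter (fun v => ∃ c ∈ K, idx τ s c = v)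

theorem mem_V {K : Set ℂ} (hK : K ⊆ closedBall 0 2) (τ : Bool × Bool) (s : ℕ) (v : ℤ × ℤ) :
    v ∈ V K τ s ↔ ∃ c ∈ K, idx τ s c = v := by
  classical
  unfold V
  rw [Finset.mem_filter]
  constructor
  · exact fun h => h.2
  · rintro ⟨c, hc, rfl⟩
    exact ⟨mem_box τ _ (hK hc), c, hc, rfl⟩

/-- the sum over the ancestors -/
noncomputable def gs (K : Set ℂ) (l : ℝ) (τ : Bool × Bool) : ℕ → ℤ × ℤ → ℝ
  | 0, _ => 0
  | s + 1, v => gs K l τ s (par 1 v) + aa K l τ s (par 1 v)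

theorem gs_idx (K : Set ℂ) (l : ℝ) (τ : Bool × Bool) (s : ℕ) (c : ℂ) :
    gs K l τ s (idx τ s c) = ∑ i ∈ Finset.range s, aa K l τ i (idx τ i c) := by
  induction s with
  | zero => rfl
  | succ s ih =>
    rw [Finset.sum_range_succ, gs, par_idx, ih]

theorem key_ineq {κ a D C : ℝ} (hκ : 0 < κ) (h : 2 * κ * C ≤ 1) (ha : 0 ≤ a) (haD : a ≤ D)
    (hD : D ≤ C) : Real.exp (κ * a) * (1 + 2 * κ * (D - a)) ≤ 1 + 2 * κ * D := by
  have h1 : 2 * κ * D ≤ 1 := by nlinarith
  have h2 : Real.exp (κ * a) * (1 - κ * a) ≤ 1 := by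
    have h3 := Real.one_sub_le_exp_neg (κ * a)
    have h4 := Real.exp_pos (κ * a)
    calc Real.exp (κ * a) * (1 - κ * a) ≤ Real.exp (κ * a) * Real.exp (-(κ * a)) :=
          mul_le_mul_of_nonneg_left h3 h4.le
      _ = 1 := by rw [← Real.exp_add, add_neg_cancel, Real.exp_zero]
  have h5 : 1 + 2 * κ * (D - a) ≤ (1 - κ * a) * (1 + 2 * κ * D) := by
    have h6 : (κ * a) * (2 * κ * D) ≤ (κ * a) * 1 := mul_le_mul_of_nonneg_left h1 (by positivity)
    nlinarith
  have hD0 : 0 ≤ D := ha.trans haD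
  calc Real.exp (κ * a) * (1 + 2 * κ * (D - a))
      ≤ Real.exp (κ * a) * ((1 - κ * a) * (1 + 2 * κ * D)) :=
        mul_le_mul_of_nonneg_left h5 (Real.exp_pos _).le
    _ = (Real.exp (κ * a) * (1 - κ * a)) * (1 + 2 * κ * D) := by ring
    _ ≤ 1 * (1 + 2 * κ * D) := mul_le_mul_of_nonneg_right h2 (by positivity)
    _ = _ := one_mul _

theorem step {K : Set ℂ} (hK : K ⊆ closedBall 0 2) {l κ : ℝ} (hl : 0 < l) (hκ : 0 < κ)
    (hκ1 : 2 * κ * C1 l ≤ 1) (τ : Bool × Bool) {s t : ℕ} (hst : s < t) :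
    ∑ v ∈ V K τ (s + 1), Real.exp (κ * gs K l τ (s + 1) v) * (1 + 2 * κ * DD K l τ (s + 1) t v) ≤
    4 * ∑ v ∈ V K τ s, Real.exp (κ * gs K l τ s v) * (1 + 2 * κ * DD K l τ s t v) := by
  classical
  have hmaps : ∀ v ∈ V K τ (s + 1), par 1 v ∈ V K τ s := by
    intro v hv
    rw [mem_V hK] at hv ⊢
    obtain ⟨c, hc, rfl⟩ := hv
    exact ⟨c, hc, (par_idx τ 1 s c).symm⟩
  rw [← Finset.sum_fiberwise_of_maps_to (g := par 1) hmaps, Finset.mul_sum]
  apply Finset.sum_le_sum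
  intro v _
  have h1 : ∑ w ∈ (V K τ (s + 1)).filter (fun w => par 1 w = v),
      Real.exp (κ * gs K l τ (s + 1) w) * (1 + 2 * κ * DD K l τ (s + 1) t w) =
      ∑ w ∈ (V K τ (s + 1)).filter (fun w => par 1 w = v),
      Real.exp (κ * (gs K l τ s v + aa K l τ s v)) * (1 + 2 * κ * DD K l τ (s + 1) t w) := by
    apply Finset.sum_congr rfl
    intro w hw
    rw [Finset.mem_filter] at hw
    rw [gs, hw.2]
  have h2 : ∑ w ∈ (V K τ (s + 1)).filter (fun w => par 1 w = v),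
      Real.exp (κ * (gs K l τ s v + aa K l τ s v)) * (1 + 2 * κ * DD K l τ (s + 1) t w) ≤
      ∑ w ∈ Fib 1 v,
      Real.exp (κ * (gs K l τ s v + aa K l τ s v)) * (1 + 2 * κ * DD K l τ (s + 1) t w) := by
    apply Finset.sum_le_sum_of_subset_of_nonneg
    · intro w hw
      rw [mem_Fib]
      exact (Finset.mem_filter.1 hw).2
    · intro w _ _
      have := DD_nonneg K l τ (s + 1) t w
      positivity
  rw [h1]
  refine h2.trans ?_
  rw [← Finset.mul_sum, Finset.sum_add_distrib, ← Finset.mul_sum, ← DD_rec hl τ hst v,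
    Finset.sum_const, card_Fib]
  have e0 : Real.exp (κ * (gs K l τ s v + aa K l τ s v)) =
      Real.exp (κ * gs K l τ s v) * Real.exp (κ * aa K l τ s v) := by
    rw [← Real.exp_add]
    congr 1
    ring
  rw [e0]
  have h3 := key_ineq hκ hκ1 (aa_nonneg K l τ s v) (aa_le hl τ hst v) (DD_le hl τ s t v)
  have h4 := Real.exp_pos (κ * gs K l τ s v)
  calc Real.exp (κ * gs K l τ s v) * Real.exp (κ * aa K l τ s v) *
        (4 ^ 1 • (1 : ℝ) + 2 * κ * (4 * (DD K l τ s t v - aa K l τ s v)))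
      = 4 * (Real.exp (κ * gs K l τ s v) * (Real.exp (κ * aa K l τ s v) *
        (1 + 2 * κ * (DD K l τ s t v - aa K l τ s v)))) := by
        simp only [pow_one, nsmul_eq_mul, mul_one]
        push_cast
        ring
    _ ≤ 4 * (Real.exp (κ * gs K l τ s v) * (1 + 2 * κ * DD K l τ s t v)) :=
        mul_le_mul_of_nonneg_left (mul_le_mul_of_nonneg_left h3 h4.le) (by norm_num)

theorem moment {K : Set ℂ} (hK : K ⊆ closedBall 0 2) {l κ : ℝ} (hl : 0 < l) (hκ : 0 < κ)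
    (hκ1 : 2 * κ * C1 l ≤ 1) (τ : Bool × Bool) (t : ℕ) :
    ∑ v ∈ V K τ t, Real.exp (κ * gs K l τ t v) ≤ 200 * 4 ^ t := by
  classical
  have h1 : ∀ s ≤ t, ∑ v ∈ V K τ s, Real.exp (κ * gs K l τ s v) * (1 + 2 * κ * DD K l τ s t v) ≤
      200 * 4 ^ s := by
    intro s
    induction s with
    | zero =>
      intro _
      have h2 : ∀ v ∈ V K τ 0, Real.exp (κ * gs K l τ 0 v) * (1 + 2 * κ * DD K l τ 0 t v) ≤ 2 := by
        intro v _
        have h3 := DD_le (K := K) hl τ 0 t v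
        rw [gs, mul_zero, Real.exp_zero, one_mul]
        nlinarith
      refine (Finset.sum_le_sum h2).trans ?_
      rw [Finset.sum_const, nsmul_eq_mul]
      have h4 : (V K τ 0).card ≤ (box τ 0).card := Finset.card_le_card (Finset.filter_subset _ _)
      have h5 := card_box τ 0
      have h6 : ((V K τ 0).card : ℝ) ≤ (box τ 0).card := by exact_mod_cast h4
      rw [pow_zero] at h5 ⊢
      linarith
    | succ s ih =>
      intro hs
      have h3 := step hK hl hκ hκ1 τ (lt_of_lt_of_le (Nat.lt_succ_self s) hs)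
      have h4 := ih (by omega)
      rw [pow_succ]
      linarith
  refine le_trans ?_ (h1 t le_rfl)
  apply Finset.sum_le_sum
  intro v _
  have h2 := DD_nonneg K l τ t t v
  have h3 := Real.exp_pos (κ * gs K l τ t v)
  have h4 : 1 ≤ 1 + 2 * κ * DD K l τ t t v := by
    have : 0 ≤ 2 * κ * DD K l τ t t v := by positivity
    linarith
  nlinarith

/-- number of squares with a large sum -/
theorem count {K : Set ℂ} (hK : K ⊆ closedBall 0 2) {l κ : ℝ} (hl : 0 < l) (hκ : 0 < κ)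
    (hκ1 : 2 * κ * C1 l ≤ 1) (τ : Bool × Bool) (t : ℕ) (lam : ℝ) :
    ∃ F : Finset (ℤ × ℤ), (F.card : ℝ) ≤ 200 * 4 ^ t * Real.exp (-(κ * lam)) ∧
      ∀ c ∈ K, lam ≤ ∑ i ∈ Finset.range t, aa K l τ i (idx τ i c) → idx τ t c ∈ F := by
  classical
  refine ⟨(V K τ t).filter (fun v => lam ≤ gs K l τ t v), ?_, ?_⟩
  · have h1 : (((V K τ t).filter (fun v => lam ≤ gs K l τ t v)).card : ℝ) *
        Real.exp (κ * lam) ≤ ∑ v ∈ V K τ t, Real.exp (κ * gs K l τ t v) := by
      rw [← nsmul_eq_mul, ← Finset.sum_const]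
      refine (Finset.sum_le_sum (fun v hv => ?_)).trans
        (Finset.sum_le_sum_of_subset_of_nonneg (Finset.filter_subset _ _)
          (fun v _ _ => (Real.exp_pos _).le))
      rw [Finset.mem_filter] at hv
      exact Real.exp_le_exp.2 (mul_le_mul_of_nonneg_left hv.2 hκ.le)
    have h2 := h1.trans (moment hK hl hκ hκ1 τ t)
    rw [Real.exp_neg, ← div_eq_mul_inv, le_div_iff₀ (Real.exp_pos _)]
    exact h2
  · intro c hc hlam
    rw [Finset.mem_filter, mem_V hK, gs_idx]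
    exact ⟨⟨c, hc, rfl⟩, hlam⟩

end Pool.Agent.Helper32.LD
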